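import Pool.Agent.H681.OR.Final

/-!
# An oracle relative to which `M[1] = W[1] = W[P]`, but `M[1]` is hard

For every oracle `D` there is an oracle `E` such that, relative to `D` and `E` together,

* `M[1] = W[t] = A[t] = AW[*] = W[P]` for all `t ≥ 1`; moreover every countable family of problems
  about strings and oracles, which may be prescribed in advance, collapses to `M[1]`;
* `FPT ≠ M[1]`, even nonuniformly, and exhaustive search cannot be improved: the canonical
  problem `Mini` in `M[1]` (given `p` and `y` with `|y| ≤ k (log |p| + 1)`, is there `w` with
  `|w| = |y|` such that `y w` is in the oracle?) is not solved, on the instances of width `k`, by any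
  algorithm which asks `O(n ^ (k - 1))` questions, for any advice.

`M[1]` is defined as in the problem file, by `p-log-SAT` for `d`-CNF formulas, whose literals
may now be atoms that ask the oracle; the fpt-reductions may ask arbitrary questions of the oracle,
but the formulas, the sentences and the guessing machines ask questions of at most
`g(k) (log n + 1)` bits (short questions).

Idea. The truth value of every statement `K` about the short strings in the oracle is encoded into
the oracle: `E` contains the bits of a string `y` (a row) of length `O(g(k) log n)` with
`Mini y ↔ K`. So the fpt-reduction from the statements to `M[1]` reads the row of `K`. If an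
algorithm asks for the rows of statements `K` which are still undecided, then it gets fresh rows;
the finitely many rows which were promised are made true or false at the end of the construction,
level by level, when the truth values of the statements are known. Since the algorithm asks for less
than `2 ^ (|y| - 2)` strings, it does not notice whether there is `w` with `y w` in the oracle.
-/

set_option autoImplicit false

namespace Pool.Agent.Results.MP_ddf912_lc.CollapseToM1

open Pool.Agent.NPC Pool.Agent.H620R2.Gauge Pool.Agent.H681.OR
open Pool.Agent.TH678.GC (join)
open Pool.Agent.Y626.WC (InFPT)

/-- For every oracle `D` and every sequence `Φ` of properties of strings and oracles there is an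
oracle `E` such that relative to `D` and `E`: `FPT ⊆ M[1]`; the class `M[1]`, its narrow form `InM`,
`W[t]` and `A[t]` for all `t ≥ 1`, `AW[*]` and `W[P]`, with short questions, are all equal; all
problems which are fpt-reducible to some `Φ i` on the short strings are in `M[1]`; the problem `Mini`
with the parameter `width` is in (the narrow form of) `M[1]`, but for every `k`, every algorithm whose
number of questions is bounded by a polynomial of degree less than `k`, and every advice `s`, there
is an instance of width `k` for which the output of the algorithm is not the right answer. -/
theorem result (D : Oracle) (Φ : ℕ → List Bool → Oracle → Prop) : ∃ E : Oracle,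
    (∀ (α : Type) [TEnc α] (κ : α → ℕ) (P : α → Prop),
      (InFPT (join D E) κ P → InM1 (join D E) κ P) ∧
      (InM (join D E) κ P ↔ InM1 (join D E) κ P) ∧
      (∀ t, 1 ≤ t → (InWs t (join D E) κ P ↔ InM1 (join D E) κ P) ∧
        (InAs t (join D E) κ P ↔ InM1 (join D E) κ P)) ∧
      (InAWs (join D E) κ P ↔ InM1 (join D E) κ P) ∧
      (InWPs (join D E) κ P ↔ InM1 (join D E) κ P) ∧
      ∀ i, Reduces (Φ i) (join D E) κ P → InM1 (join D E) κ P) ∧
    InM (join D E) width (fun a => Mini (join D E) a.2) ∧
    ∀ (k : ℕ) (M : Alg) (s : List Bool), M.p.natDegree < k →
      ∃ (a : List Bool × List Bool) (b : Bool), width a = k ∧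
        (Mini (join D E) a.2 ↔ b = true) ∧ M.out (join D E) (pairBits s (bits a)) ≠ some [b] :=
  main D Φ

end Pool.Agent.Results.MP_ddf912_lc.CollapseToM1
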