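import Pool.Agent.H681.TB.Final

/-!
# An oracle relative to which `FPT ≠ M[1] ≠ W[1]`, but `W[1] = W[P]`

For every oracle `D` there is an oracle `E` such that, relative to `D` and `E` together,

* `W[1] = W[t] = A[t] = AW[*] = W[P]` for all `t ≥ 1`; moreover every countable family of problems
  about strings and oracles, which may be prescribed in advance, collapses to `W[1]`;
* `W[1]` is not contained in `M[1]`, even in the wide form: the problem `TabP` in `W[1]` (given a
  list of labels, is the concatenation of some `k` of them in the oracle?) has no compression to
  `(h(k) n) ^ (1 / 3)` bits, even with an arbitrary advice which depends on `k`, whereas all problems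
  in the wide form of `M[1]` have compressions to `(h(k) (log n + 1)) ^ c` bits;
* `FPT ≠ M[1]`, and the canonical problem `Mini` in the narrow form of `M[1]` has no algorithms which
  are much better than exhaustive search.

So the question whether `M[1] = W[1]` is not answered by the collapse of the classes above `W[1]`,
for relativizing proofs: relative to the oracle of `CollapseToM1` all classes above `M[1]` are equal to
`M[1]`, and here all classes above `W[1]` are equal to `W[1]`, but not to `M[1]`.

Idea. The truth value of every statement `K` about the short strings in the oracle is encoded into
the oracle: `E` contains the bits of a table `T` (a list of labels) such that the concatenation of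
some `h` labels in `T` is in the oracle if and only if `K` is true. If an algorithm asks for the bits
of the table of a statement `K` which is still undecided, then it gets the table of the values of the
polynomial given by the name of `K` over a field with about `B ^ 2` elements, where `B` bounds the
length of the name. Two different tables have at most `B` labels in common, so that every table of
level `(B, h)` has a question of its own as long as there are less than `B ^ h` other questions and
tables. So the finitely many tables which were promised can be made true or false at the end of the
construction, level by level, when the truth values of the statements are known. The same tables are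
the instances of `TabP` which have no compression: two of `2 ^ (B / 2 + 2)` names have the same
compression to `B / 2` bits, and one of them can be made true and the other one false.
-/

set_option autoImplicit false

namespace Pool.Agent.Results.MP_ddf912_lc.CollapseToW1

open Pool.Agent.NPC Pool.Agent.H620R2.Gauge Pool.Agent.H681.OR Pool.Agent.H681.TB
open Pool.Agent.TH678.GC (join)
open Pool.Agent.Y626.WC (InFPT)
open Pool.Agent.Y626

/-- For every oracle `D` and every sequence `Φ` of properties of strings and oracles there is an
oracle `E` such that relative to `D` and `E`: `FPT` is contained in the narrow form `InM` of `M[1]`,
which is contained in `W[1]` (with short questions) and in the wide form of `M[1]`; all problems in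
the wide form of `M[1]` have compressions; `W[t]` and `A[t]` for all `t ≥ 1`, `AW[*]` and `W[P]`, with
short questions, are all equal to `W[1]`; all problems which are fpt-reducible to some `Φ i` on the
short strings are in `W[1]`; the problem `Mini` with the parameter `width` is in the narrow form of
`M[1]`, but for every `k`, every algorithm whose number of questions is bounded by a polynomial of
degree less than `k / 8`, and every advice `s`, there is an instance of width `k` for which the output
of the algorithm is not the right answer; and the problem `TabP` is in `W[1]`, but it has no
compression. -/
theorem result (D : Oracle) (Φ : ℕ → List Bool → Oracle → Prop) : ∃ E : Oracle,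
    (∀ (α : Type) [TEnc α] (κ : α → ℕ) (P : α → Prop),
      (InFPT (join D E) κ P → InM (join D E) κ P) ∧
      (InM (join D E) κ P → InWs 1 (join D E) κ P ∧ WX.InM1 (join D E) κ P) ∧
      (WX.InM1 (join D E) κ P → InComp (join D E) κ P) ∧
      (∀ t, 1 ≤ t → (InWs t (join D E) κ P ↔ InWs 1 (join D E) κ P) ∧
        (InAs t (join D E) κ P ↔ InWs 1 (join D E) κ P)) ∧
      (InAWs (join D E) κ P ↔ InWs 1 (join D E) κ P) ∧
      (InWPs (join D E) κ P ↔ InWs 1 (join D E) κ P) ∧
      ∀ i, Reduces (Φ i) (join D E) κ P → InWs 1 (join D E) κ P) ∧
    (InM (join D E) width (fun a => Mini (join D E) a.2) ∧
      ∀ (k : ℕ) (M : Alg) (s : List Bool), 8 * M.p.natDegree < k →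
        ∃ (a : List Bool × List Bool) (b : Bool), width a = k ∧
          (Mini (join D E) a.2 ↔ b = true) ∧ M.out (join D E) (pairBits s (bits a)) ≠ some [b]) ∧
    InWs 1 (join D E) (fun a : List (List Bool) × ℕ => a.2) (TabP (join D E)) ∧
    ¬ InComp (join D E) (fun a : List (List Bool) × ℕ => a.2) (TabP (join D E)) :=
  main D Φ

end Pool.Agent.Results.MP_ddf912_lc.CollapseToW1
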