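import Pool.Agent.H660.UM.Up
import Pool.Agent.H660.UT.Pref

/-!
# `p-CLIQUE` is not reducible to `p-log-SAT(Γ_{1,d})` by programs that compute with unknown inputs

`M[1]` is the closure under fpt-reductions of the problems `p-log-SAT(Γ_{1,d})`: satisfiability of
formulas of size `m` with at most `d` literals per clause, parameterized by `⌈v / log m⌉`, where `v`
is the number of variables. An fpt-reduction of `p-CLIQUE` to this problem maps a graph with `n`
vertices and a number `k` to a formula with `v ≤ g k * log m` variables, where `m ≤ f k * n ^ c`.

We consider (nonuniform, randomised, truth-table) reductions that are computed by circuits with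
unknown inputs. Each pair of vertices is known to be an edge, known not to be an edge, or unknown
(`Know (Sym2 (Fin n))`). The gates have values in an ordered set `D` of states of knowledge and apply
arbitrary functions `D → D → D` that respect the order: more knowledge about the arguments gives more
knowledge about the value. `D` is any partially ordered set in which the elements below a given one
form a chain with at most `H + 1` elements (`Height D H`).

* `H = 1`: `D` is the flat order over any set `A`, for instance the set of the machine words of any
  length, or of formulas, or of real numbers. The gates apply ARBITRARY operations `A → A → A` as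
  soon as the arguments are known; with their most precise extensions (`Flat.ext`) they may also give
  a value when an argument is unknown and irrelevant. For `A = Bool` these are the hazard-free
  (three-valued) circuits with arbitrary binary gates, negations included.
* `H = w`: `D` is the set of the words of `w` bits of which some leading bits are known (`Pref w`).

For each possible clause an output gate tells whether the clause is dropped from the formula; the
formula consists of the clauses which are not known to be dropped. There may be `q` such formulas,
and the answer is a nondecreasing function of the `q` answers to the questions whether these formulas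
are satisfiable (`KReduction`). The answer has to be yes, with probability at least `4 / 5`, if the
graph has a clique of `s` vertices and its edges are known (all other pairs may be unknown), and no,
with probability at least `3 / 4`, if the graph has no clique of `k` vertices and everything is known
(`Distinguishes s k`).

(1) For all functions `f`, `g`, `s`, all numbers `c`, `d` and all `γ < 2`: for all large `k` and then
all large `n` there are no such reductions with fewer than `n ^ γ` questions, with at most
`g k * (log (f k * n ^ c) + 1)` variables, and with at most `f k * n ^ c / H ^ 2` gates. So, in this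
model, `W[1]` is not contained in `M[1]`.

(2) For all `n`, `k ≥ 2` a deterministic three-valued circuit with at most `2 k ^ 2 n ^ k` gates
gives a many-one reduction (to formulas without variables) which is always right, and which says yes
for every partial knowledge about the graph by which it is known to have a clique of `k` vertices.

Proof of (1). Declare the non-edges unknown. The value of each gate is then below its value for the
complete graph, so that it lies in a chain with at most `H + 1` elements, and it is given by `H` bits
(is its rank at least `j`?). These bits are computed by at most `4 H ^ 2` AND and OR gates from those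
of the arguments. The library result `FaultyNegations` on circuits of AND and OR gates applies.
-/

set_option autoImplicit false

namespace Pool.Agent.Results.MP_ddf912_lc.UnknownInputGapReductions

open Filter Pool.Agent.H698.HF Pool.Agent.H660.UT Pool.Agent.H660.UM
open Flat (unknown known)

theorem result :
    -- (1) there are no reductions
    (∀ (f g s : ℕ → ℕ), (∀ k, k ≤ s k) → ∀ (c d : ℕ) (γ : ℝ), 0 ≤ γ → γ < 2 →
      ∀ᶠ k : ℕ in atTop, ∀ᶠ n : ℕ in atTop,
        ∀ (Ω : Type) [Fintype Ω] [Nonempty Ω] (D : Ω → Type) [∀ r, PartialOrder (D r)]
          (H v q : Ω → ℕ), (∀ r, Height (D r) (H r)) →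
        ∀ R : ∀ r, KReduction n (v r) d (q r) (D r),
          (∀ r, v r ≤ g k * (Nat.log 2 (f k * n ^ c) + 1)) →
          (∀ r, ((q r + 1 : ℕ) : ℝ) ≤ (n : ℝ) ^ γ) →
          (∀ r, (H r) ^ 2 * (R r).l.length ≤ f k * n ^ c) →
            ¬ Distinguishes (s k) k fun r P => (R r).answer P) ∧
    -- (2) brute force
    (∀ n k d : ℕ, 2 ≤ n → 2 ≤ k → ∃ R : KReduction n 0 d 1 (Flat Bool),
      R.l.length ≤ 2 * k ^ 2 * n ^ k ∧ (∀ b, R.ev b = b 0) ∧
      (∀ P : Know (Sym2 (Fin n)), (∃ G : SimpleGraph (Fin n), Le P (full (· ∈ G.edgeSet))) →
        (R.answer P = true ↔
          ∀ G : SimpleGraph (Fin n), Le P (full (· ∈ G.edgeSet)) → ¬ G.CliqueFree k)) ∧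
      Distinguishes k k fun (_ : Unit) P => R.answer P) ∧
    -- (3) the orders
    (∀ A : Type, Height (Flat A) 1 ∧ (Nonempty A → ∀ (f : A → A → A)
      (x x' y y' : Flat A), x ≤ x' → y ≤ y' → Flat.ext f x y ≤ Flat.ext f x' y')) ∧
    ∀ w : ℕ, Height (Pref w) w := by
  refine ⟨?_, fun n k d hn hk => upperM d hn hk, fun A => ⟨height_flat A,
    fun hA f x x' y y' hx hy => Flat.ext_mono' f x x' y y' hx hy⟩, height_pref⟩
  intro f g s hs c d γ hγ0 hγ
  filter_upwards [no_reduction (fun k => 4 * f k) g s hs c d γ hγ0 hγ] with k hk
  filter_upwards [hk] with n hn
  intro Ω _ _ D _ H v q hH R hv hq hsz
  refine hn Ω D H v q hH R (fun r => (hv r).trans ?_) hq fun r => ?_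
  · refine Nat.mul_le_mul_left _ (Nat.succ_le_succ (Nat.log_mono_right ?_))
    exact Nat.mul_le_mul_right _ (by omega)
  · have h1 := hsz r
    have h2 : 2 * H r * (H r + 1) ≤ 4 * (H r) ^ 2 := by
      rcases Nat.eq_zero_or_pos (H r) with h | h
      · rw [h]; simp
      · nlinarith
    calc 2 * H r * (H r + 1) * (R r).l.length ≤ 4 * (H r) ^ 2 * (R r).l.length :=
          Nat.mul_le_mul_right _ h2
      _ = 4 * ((H r) ^ 2 * (R r).l.length) := by ring
      _ ≤ 4 * (f k * n ^ c) := Nat.mul_le_mul_left _ h1
      _ = 4 * f k * n ^ c := by ring

end Pool.Agent.Results.MP_ddf912_lc.UnknownInputGapReductions
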