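import Pool.Agent.H698.UM.Core

set_option autoImplicit false

/-!
# `p-CLIQUE` is not reducible to `p-log-SAT(Γ_{1,d})` by circuits that compute with unknown inputs

The circuits read, for each pair of vertices of a graph, whether it is known to be an edge, known not
to be an edge or unknown.  The gates have values in an ordered set `D` of states of knowledge and
apply arbitrary functions `D → D → D` that respect the order (more knowledge about the arguments
gives more knowledge about the value); `D` is any partially ordered set in which the elements below a
given one form a chain of real numbers.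

* If `D` is the flat order with the values `unknown`, `known true` and `known false` then these are
  the hazard-free (Kleene, three-valued) circuits with arbitrary binary gates, each evaluated by its
  most precise extension; negations are allowed.
* If `D` is the flat order over an arbitrary set `A` (vertices, words, ...) the gates may apply
  arbitrary functions `A → A → A` as soon as the arguments are known.
* If `D = ℝ` then these are the monotone real circuits.

The circuit is a reduction: its output bits (a value belongs to some upper set of `D`, or it does
not) are the bits of formulas in `Γ_{1,d}`, one bit for each possible clause, and the answer is an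
arbitrary function of the answers to the questions which of the formulas are satisfiable.  If edges
are known to be present, and the other pairs are unknown, the answer has to tell whether the known
edges contain a clique with `k` vertices.

For all these models at once: there are no such reductions of fpt size with at most `n ^ (2 - ε)`
questions, and even no compression to at most `n ^ (2 - ε)` output bits that are evaluated in an
arbitrary way, by circuits of size `n ^ o(k)`; `n (n - 1) / 2` output bits suffice.

Proof. If nothing is known to be absent then all gate values are below the value for the complete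
graph, so that they lie in a chain, in which the gate is simulated by one monotone real gate; no
gates are lost. Then the lower bound for reductions by monotone real circuits of
`Pool.Graph.R_pool_sql_team_seeded_47a924f7.T6.H87.M1` applies.
-/

namespace Pool.Agent.Results.MP_ddf912_lc.UnknownInputReductions

open Filter Pool.Agent.H698.HF Pool.Agent.H698.UM
open Pool.Agent.T6.H87.M1 (Pairs)

/-- (1) Reductions of fpt size to formulas in `Γ_{1,d}` with at most `g k (log (f k n ^ c) + 1)`
variables ask more than `n ^ (2 - ε) - 1` questions, for large `k` and `n`. (2) If it can be seen from
the output bits `O` of a circuit `l` with `|l| + |O| + 1 ≤ n ^ (ε k / (2 * 10 ^ 15))` whether there is a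
clique with `k` vertices then `|O| + 1 > n ^ (2 - ε)`. (3) For every order `D` with two elements
`a < b` a circuit with `n (n - 1) / 2` gates, which are all output bits, suffices. (4) The real numbers
and all flat orders are tree-like, and the most precise extension of a function to a flat order is
nondecreasing, so that it is allowed at the gates. -/
theorem result :
    (∀ ε : ℝ, 0 < ε → ε < 1 → ∀ (f g : ℕ → ℕ) (c d : ℕ), ∀ᶠ k : ℕ in atTop, ∀ᶠ n : ℕ in atTop,
      ∀ (D : Type) [PartialOrder D], TreeLike D → ∀ (q v : ℕ) (l : List (Know (Pairs n) → D)),
      v ≤ g k * (Nat.log 2 (f k * n ^ c) + 1) → l.length ≤ f k * n ^ c → Circ l →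
      Reduces' k q v d l → (n : ℝ) ^ (2 - ε) < q + 1) ∧
    (∀ ε : ℝ, 0 < ε → ε < 1 → ∀ k : ℕ, 2 * 10 ^ 13 ≤ k → ∃ n₀ : ℕ, ∀ n : ℕ, n₀ ≤ n →
      ∀ (D : Type) [PartialOrder D], TreeLike D →
      ∀ (O : Type) [Fintype O] (l : List (Know (Pairs n) → D)), Circ l → Sees k O l →
      ((l.length + Fintype.card O + 1 : ℕ) : ℝ) ≤ (n : ℝ) ^ (ε * k / (2 * 10 ^ 15)) →
      (n : ℝ) ^ (2 - ε) < Fintype.card O + 1) ∧
    (∀ (n k : ℕ) (D : Type) [PartialOrder D] (a b : D), a < b →
      ∃ l : List (Know (Pairs n) → D), Circ l ∧ l.length = n.choose 2 ∧ Sees k (Pairs n) l) ∧
    TreeLike ℝ ∧ ∀ A : Type, TreeLike (Flat A) ∧ (Nonempty A → ∀ (f : A → A → A)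
      (x x' y y' : Flat A), x ≤ x' → y ≤ y' → Flat.ext f x y ≤ Flat.ext f x' y') :=
  ⟨fun ε hε hε1 f g c d => no_reduction ε hε hε1 f g c d,
    fun ε hε hε1 k hk => compress ε hε hε1 k hk,
    fun n k D _ a b hab => trivial_sees n k hab, treeLike_real,
    fun A => ⟨Flat.treeLike, fun hA f x x' y y' hx hy => Flat.ext_mono' f x x' y y' hx hy⟩⟩

end Pool.Agent.Results.MP_ddf912_lc.UnknownInputReductions
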